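import Pool.Agent.H92.EM.TA

/-!
# Smoothing by matrices near the identity (MRS)
-/

set_option autoImplicit false

open scoped ContDiff
open MeasureTheory Pool.Agent.H92.EQ Pool.Agent.H92.EM

namespace Pool.Agent.H13.EMD

/-- affine change of variables with an unspecified constant -/
theorem affine_int {E : Type*} [NormedAddCommGroup E] [NormedSpace ℝ E] [MeasurableSpace E]
    [BorelSpace E] [FiniteDimensional ℝ E] (μ : Measure E) [μ.IsAddHaarMeasure]
    (L : E ≃ₗ[ℝ] E) (v : E) : ∃ c : ℝ, 0 ≤ c ∧ ∀ F : E → ℝ,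
      (∫ x, F (L x + v) ∂μ = c * ∫ x, F x ∂μ) ∧
      (Integrable F μ → Integrable (fun x => F (L x + v)) μ) := by
  have hdet : LinearMap.det (L : E →ₗ[ℝ] E) ≠ 0 := (LinearEquiv.isUnit_det' L).ne_zero
  have hmap := Measure.map_linearMap_addHaar_eq_smul_addHaar μ hdet
  set e : E ≃ᵐ E := L.toContinuousLinearEquiv.toHomeomorph.toMeasurableEquiv with he
  have hmap' : Measure.map e μ = ENNReal.ofReal |(LinearMap.det (L : E →ₗ[ℝ] E))⁻¹| • μ := hmap
  refine ⟨|(LinearMap.det (L : E →ₗ[ℝ] E))⁻¹|, abs_nonneg _, fun F => ⟨?_, fun hF => ?_⟩⟩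
  · have h1 : ∫ x, F (L x + v) ∂μ = ∫ y, F (y + v) ∂(Measure.map e μ) :=
      (integral_map_equiv e (fun y => F (y + v))).symm
    rw [h1, hmap', integral_smul_measure, ENNReal.toReal_ofReal (abs_nonneg _), smul_eq_mul,
      integral_add_right_eq_self F v]
  · have h2 : Integrable (fun y => F (y + v)) (Measure.map e μ) := by
      rw [hmap']
      exact (hF.comp_add_right v).smul_measure ENNReal.ofReal_ne_top
    exact (integrable_map_equiv e (fun y => F (y + v))).1 h2

section abs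

variable {k : ℕ} {b : Matrix (Fin (k + 1)) (Fin (k + 1)) ℂ → ℝ} {β : ℝ}

/-- integrability and bound -/
theorem intb {E : Type*} [TopologicalSpace E] [MeasurableSpace E] [OpensMeasurableSpace E]
    {μ : Measure E}
    (hbc : ContinuousOn (fun X : Fin (k + 1) → Fin (k + 1) → ℂ => b (Matrix.of X))
      {X | (Matrix.of X).det ≠ 0}) (hb : ∀ A, A.det ≠ 0 → |b A| ≤ β) (w : E → ℝ)
    (hw : Integrable w μ) (h : E → Matrix (Fin (k + 1)) (Fin (k + 1)) ℂ) (hh : Continuous h)
    (hwd : ∀ᵐ X ∂μ, w X ≠ 0 → (h X).det ≠ 0) :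
    Integrable (fun X => w X * b (h X)) μ ∧
      |∫ X, w X * b (h X) ∂μ| ≤ β * ∫ X, |w X| ∂μ := by
  have hU : IsOpen {X : E | (h X).det ≠ 0} :=
    isOpen_ne_fun hh.matrix_det continuous_const
  have hc : ContinuousOn (fun X => b (h X)) {X : E | (h X).det ≠ 0} :=
    ContinuousOn.comp (g := fun X : Fin (k + 1) → Fin (k + 1) → ℂ => b (Matrix.of X))
      (f := fun X : E => (fun i j => h X i j : Fin (k + 1) → Fin (k + 1) → ℂ)) hbc
      (Continuous.continuousOn hh) (fun X hX => hX)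
  have hm1 : AEStronglyMeasurable (fun X => w X * b (h X))
      (μ.restrict {X : E | (h X).det ≠ 0}) :=
    hw.aestronglyMeasurable.restrict.mul (hc.aestronglyMeasurable hU.measurableSet)
  have hm2 := (aestronglyMeasurable_indicator_iff hU.measurableSet).2 hm1
  have hm : AEStronglyMeasurable (fun X => w X * b (h X)) μ := by
    refine hm2.congr ?_
    filter_upwards [hwd] with X hX
    by_cases hd : (h X).det ≠ 0
    · exact Set.indicator_of_mem (s := {X : E | (h X).det ≠ 0}) hd _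
    · rw [Set.indicator_of_notMem (s := {X : E | (h X).det ≠ 0}) hd]
      have : w X = 0 := by
        by_contra h0
        exact hd (hX h0)
      rw [this, zero_mul]
  have hbd : ∀ᵐ X ∂μ, ‖w X * b (h X)‖ ≤ β * |w X| := by
    filter_upwards [hwd] with X hX
    rw [Real.norm_eq_abs, abs_mul]
    by_cases h0 : w X = 0
    · rw [h0]
      simp
    · rw [mul_comm β]
      exact mul_le_mul_of_nonneg_left (hb _ (hX h0)) (abs_nonneg _)
  have hi : Integrable (fun X => β * |w X|) μ := hw.abs.const_mul β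
  refine ⟨hi.mono' hm hbd, ?_⟩
  have := norm_integral_le_of_norm_le hi hbd
  rwa [integral_const_mul, Real.norm_eq_abs] at this

end abs

theorem haar2 (k : ℕ) :
    (volume : Measure (Fin (k + 1) → Fin (k + 1) → ℂ)).IsAddHaarMeasure := by
  have h1 : (volume : Measure (Fin (k + 1) → ℂ)).IsAddHaarMeasure := inferInstance
  have h3 : MeasurableAdd (Fin (k + 1) → ℂ) := inferInstance
  exact Measure.pi.isAddHaarMeasure (ι := Fin (k + 1)) (α := fun _ => (Fin (k + 1) → ℂ))
    (fun _ => volume)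

section key

variable {k : ℕ}

/-- right multiplication -/
noncomputable def rmul (g : Matrix (Fin (k + 1)) (Fin (k + 1)) ℂ) (hg : IsUnit g.det) :
    (Fin (k + 1) → Fin (k + 1) → ℂ) ≃ₗ[ℝ] (Fin (k + 1) → Fin (k + 1) → ℂ) where
  toFun X := fun i j => (Matrix.of X * g) i j
  invFun X := fun i j => (Matrix.of X * g⁻¹) i j
  map_add' X Y := by
    funext i j
    simp [Matrix.mul_apply, add_mul, Finset.sum_add_distrib]
  map_smul' c X := by
    funext i j
    simp [Matrix.mul_apply, Finset.mul_sum, mul_assoc]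
  left_inv X := by
    have h : Matrix.of X * g * g⁻¹ = Matrix.of X := Matrix.mul_nonsing_inv_cancel_right _ _ hg
    funext i j
    exact congrFun (congrFun h i) j
  right_inv X := by
    have h : Matrix.of X * g⁻¹ * g = Matrix.of X := Matrix.nonsing_inv_mul_cancel_right _ _ hg
    funext i j
    exact congrFun (congrFun h i) j

/-- the translation -/
def tv (g : Matrix (Fin (k + 1)) (Fin (k + 1)) ℂ) : Fin (k + 1) → Fin (k + 1) → ℂ :=
  fun i j => (g - 1) i j

theorem one_add_T (g : Matrix (Fin (k + 1)) (Fin (k + 1)) ℂ) (hg : IsUnit g.det)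
    (X : Fin (k + 1) → Fin (k + 1) → ℂ) :
    1 + Matrix.of (rmul g hg X + tv g) = (1 + Matrix.of X) * g := by
  have h : Matrix.of (rmul g hg X + tv g) = Matrix.of X * g + (g - 1) := rfl
  rw [h, add_mul, one_mul]
  abel

theorem T_sub (g : Matrix (Fin (k + 1)) (Fin (k + 1)) ℂ) (hg : IsUnit g.det) (τ : ℝ)
    (hτ0 : 0 ≤ τ) (hτ : ∀ i j, ‖(g - 1) i j‖ ≤ τ) (X : Fin (k + 1) → Fin (k + 1) → ℂ) :
    ‖rmul g hg X + tv g - X‖ ≤ (k + 1) * (1 + ‖X‖) * τ := by
  have h3 : (Matrix.of X * g + (g - 1) - Matrix.of X : Matrix (Fin (k + 1)) (Fin (k + 1)) ℂ) =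
      (1 + Matrix.of X) * (g - 1) := by
    rw [add_mul, one_mul, mul_sub, mul_one]
    abel
  have h1 : ∀ i j, (rmul g hg X + tv g - X) i j = ((1 + Matrix.of X) * (g - 1)) i j := by
    intro i j
    rw [← h3]
    rfl
  have h0 : 0 ≤ (k + 1) * (1 + ‖X‖) * τ := by positivity
  refine (pi_norm_le_iff_of_nonneg h0).2 fun i => (pi_norm_le_iff_of_nonneg h0).2 fun j => ?_
  rw [h1, Matrix.mul_apply]
  refine (norm_sum_le _ _).trans ?_
  calc ∑ l, ‖(1 + Matrix.of X) i l * (g - 1) l j‖ ≤ ∑ _l : Fin (k + 1), (1 + ‖X‖) * τ := by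
        refine Finset.sum_le_sum fun l _ => ?_
        rw [norm_mul]
        refine mul_le_mul ?_ (hτ l j) (norm_nonneg _) (by positivity)
        rw [Matrix.add_apply]
        refine (norm_add_le _ _).trans (add_le_add ?_ ?_)
        · rw [Matrix.one_apply]
          split_ifs <;> simp
        · exact (norm_le_pi_norm (X i) l).trans (norm_le_pi_norm X i)
    _ = (k + 1) * (1 + ‖X‖) * τ := by
        rw [Finset.sum_const, Finset.card_univ, Fintype.card_fin, nsmul_eq_mul]
        push_cast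
        ring

theorem th0_pos : 0 < th0 k := by
  unfold th0
  positivity

theorem th0_le : th0 k ≤ 1 / 8 := by
  unfold th0
  rw [div_le_div_iff₀ (by positivity) (by norm_num)]
  have : (0 : ℝ) ≤ (k : ℝ) := Nat.cast_nonneg k
  linarith

theorem det_one_add {X : Fin (k + 1) → Fin (k + 1) → ℂ} (hX : ‖X‖ < th0 k) :
    (1 + Matrix.of X).det ≠ 0 := by
  have he : ∀ i j, ‖X i j‖ ≤ 1 / (8 * (k + 1)) := fun i j =>
    ((norm_le_pi_norm (X i) j).trans (norm_le_pi_norm X i)).trans hX.le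
  refine det_ne_zero_of_sum_row_lt_diag fun i => ?_
  have h1 : ∑ j ∈ Finset.univ.erase i, ‖(1 + Matrix.of X) i j‖ ≤
      ∑ _j ∈ Finset.univ.erase i, 1 / (8 * ((k : ℝ) + 1)) := by
    refine Finset.sum_le_sum fun j hj => ?_
    rw [Matrix.add_apply, Matrix.one_apply_ne (Finset.ne_of_mem_erase hj).symm, zero_add]
    exact he i j
  have h2 : ∑ _j ∈ Finset.univ.erase i, 1 / (8 * ((k : ℝ) + 1)) ≤ 1 / 8 := by
    rw [Finset.sum_const, Finset.card_erase_of_mem (Finset.mem_univ i), Finset.card_univ,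
      Fintype.card_fin, nsmul_eq_mul]
    have hk : (0 : ℝ) ≤ (k : ℝ) := Nat.cast_nonneg k
    have h5 : ((k + 1 - 1 : ℕ) : ℝ) = (k : ℝ) := by
      rw [Nat.add_sub_cancel]
    rw [h5, mul_one_div, div_le_div_iff₀ (by positivity) (by norm_num)]
    linarith
  have h3 : 7 / 8 ≤ ‖(1 + Matrix.of X) i i‖ := by
    have h4 : (1 + Matrix.of X) i i = 1 + X i i := by
      rw [Matrix.add_apply, Matrix.one_apply_eq]
      rfl
    rw [h4]
    have h5 := norm_sub_norm_le (1 : ℂ) (-(X i i))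
    rw [sub_neg_eq_add, norm_neg, norm_one] at h5
    have h6 : ‖X i i‖ ≤ 1 / 8 :=
      ((norm_le_pi_norm (X i) i).trans (norm_le_pi_norm X i)).trans (hX.le.trans th0_le)
    linarith
  linarith

theorem key_bd {b : Matrix (Fin (k + 1)) (Fin (k + 1)) ℂ → ℝ} {β : ℝ}
    (hbc : ContinuousOn (fun X : Fin (k + 1) → Fin (k + 1) → ℂ => b (Matrix.of X))
      {X | (Matrix.of X).det ≠ 0}) (hb : ∀ A, A.det ≠ 0 → |b A| ≤ β)
    (w : (Fin (k + 1) → Fin (k + 1) → ℂ) → ℝ) (KL : ℝ) (hKL : 0 ≤ KL)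
    (hL : ∀ X Y, |w X - w Y| ≤ KL * ‖X - Y‖) (hs : ∀ X, th0 k ≤ ‖X‖ → w X = 0)
    (hi : Integrable w) (hw1 : ∫ X, w X = 1) (hn : ∀ X, 0 ≤ w X)
    (g : Matrix (Fin (k + 1)) (Fin (k + 1)) ℂ) (hg : g.det ≠ 0) (τ : ℝ) (hτ0 : 0 ≤ τ)
    (hτ : ∀ i j, ‖(g - 1) i j‖ ≤ τ) :
    |(∫ X, w X * b (1 + Matrix.of X)) - ∫ X, w X * b ((1 + Matrix.of X) * g)| ≤
      (4 * KL * (k + 1) * (volume (Metric.closedBall
        (0 : Fin (k + 1) → Fin (k + 1) → ℂ) 1)).toReal + 8 * (k + 1)) * τ * β := by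
  have hβ : 0 ≤ β := (abs_nonneg _).trans (hb 1 (by rw [Matrix.det_one]; exact one_ne_zero))
  have hu : IsUnit g.det := isUnit_iff_ne_zero.2 hg
  have hk : (0 : ℝ) < (k : ℝ) + 1 := by positivity
  have hwabs : ∫ X, |w X| = 1 := by
    rw [← hw1]
    exact integral_congr_ae (Filter.Eventually.of_forall fun X => abs_of_nonneg (hn X))
  have hd1 : ∀ X, w X ≠ 0 → (1 + Matrix.of X).det ≠ 0 := fun X hX =>
    det_one_add (lt_of_not_ge fun h => hX (hs X h))
  have hd2 : ∀ X, w X ≠ 0 → ((1 + Matrix.of X) * g).det ≠ 0 := fun X hX => by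
    rw [Matrix.det_mul]
    exact mul_ne_zero (hd1 X hX) hg
  have hcont1 : Continuous fun X : Fin (k + 1) → Fin (k + 1) → ℂ =>
      (1 + Matrix.of X : Matrix (Fin (k + 1)) (Fin (k + 1)) ℂ) := by
    refine continuous_const.add ?_
    exact continuous_id
  have hcont2 : Continuous fun X : Fin (k + 1) → Fin (k + 1) → ℂ =>
      ((1 + Matrix.of X) * g : Matrix (Fin (k + 1)) (Fin (k + 1)) ℂ) :=
    hcont1.matrix_mul continuous_const
  obtain ⟨i1, b1⟩ := intb (μ := volume) hbc hb w hi _ hcont1 (Filter.Eventually.of_forall hd1)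
  obtain ⟨i3, b3⟩ := intb (μ := volume) hbc hb w hi _ hcont2 (Filter.Eventually.of_forall hd2)
  rw [hwabs, mul_one] at b1 b3
  have _ := haar2 k
  obtain ⟨c, hc0, hc⟩ := affine_int volume (rmul g hu) (tv g)
  have e2 := (hc fun X => w X * b (1 + Matrix.of X)).1
  have i2 := (hc fun X => w X * b (1 + Matrix.of X)).2 i1
  simp only [one_add_T] at e2 i2
  have iT := (hc w).2 hi
  have eT := (hc w).1
  rw [hw1, mul_one] at eT
  have id' : Integrable fun X => w (rmul g hu X + tv g) - w X := iT.sub hi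
  have hd3 : ∀ X, w (rmul g hu X + tv g) - w X ≠ 0 → ((1 + Matrix.of X) * g).det ≠ 0 := by
    intro X hX
    by_cases h0 : w X = 0
    · rw [h0, sub_zero] at hX
      rw [← one_add_T g hu X]
      exact hd1 _ hX
    · exact hd2 X h0
  obtain ⟨i4, b4⟩ := intb (μ := volume) hbc hb _ id' _ hcont2
    (Filter.Eventually.of_forall hd3)
  have e4 : ∫ X, (w (rmul g hu X + tv g) - w X) * b ((1 + Matrix.of X) * g) =
      c * (∫ X, w X * b (1 + Matrix.of X)) - ∫ X, w X * b ((1 + Matrix.of X) * g) := by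
    rw [← e2, ← integral_sub i2 i3]
    refine integral_congr_ae (Filter.Eventually.of_forall fun X => ?_)
    show _ = _ - _
    ring
  rw [e4] at b4
  have e5 : |c - 1| ≤ ∫ X, |w (rmul g hu X + tv g) - w X| := by
    have h1 : c - 1 = ∫ X, (w (rmul g hu X + tv g) - w X) := by
      rw [integral_sub iT hi, eT, hw1]
    rw [h1]
    exact abs_integral_le_integral_abs
  set I1 := ∫ X, w X * b (1 + Matrix.of X) with hI1
  set I3 := ∫ X, w X * b ((1 + Matrix.of X) * g) with hI3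
  set l := ∫ X, |w (rmul g hu X + tv g) - w X| with hl
  set V := (volume (Metric.closedBall (0 : Fin (k + 1) → Fin (k + 1) → ℂ) 1)).toReal with hV
  have hV0 : 0 ≤ V := ENNReal.toReal_nonneg
  have hl0 : 0 ≤ l := integral_nonneg fun X => abs_nonneg _
  by_cases hcase : τ ≤ 1 / (4 * (k + 1))
  · have hN : (k + 1) * τ ≤ 1 / 4 := by
      have := mul_le_mul_of_nonneg_left hcase hk.le
      have h2 : ((k : ℝ) + 1) * (1 / (4 * (k + 1))) = 1 / 4 := by field_simp
      linarith
    have hpt : ∀ X, |w (rmul g hu X + tv g) - w X| ≤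
        (Metric.closedBall (0 : Fin (k + 1) → Fin (k + 1) → ℂ) 1).indicator
          (fun _ => KL * (2 * (k + 1) * τ)) X := by
      intro X
      have hT := T_sub g hu τ hτ0 hτ X
      by_cases hX : X ∈ Metric.closedBall (0 : Fin (k + 1) → Fin (k + 1) → ℂ) 1
      · rw [Set.indicator_of_mem hX]
        rw [mem_closedBall_zero_iff] at hX
        refine (hL _ _).trans (mul_le_mul_of_nonneg_left (hT.trans ?_) hKL)
        have : (k + 1) * (1 + ‖X‖) * τ = ((k + 1) * τ) * (1 + ‖X‖) := by ring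
        have h3 : 0 ≤ (k + 1) * τ := by positivity
        nlinarith
      · rw [Set.indicator_of_notMem hX]
        rw [mem_closedBall_zero_iff, not_le] at hX
        have h3 : ‖rmul g hu X + tv g - X‖ ≤ (1 + ‖X‖) * (1 / 4) := by
          refine hT.trans ?_
          have h4 : (k + 1) * (1 + ‖X‖) * τ = (1 + ‖X‖) * ((k + 1) * τ) := by ring
          rw [h4]
          exact mul_le_mul_of_nonneg_left hN (by positivity)
        have h5 : ‖X‖ - ‖rmul g hu X + tv g‖ ≤ ‖rmul g hu X + tv g - X‖ := by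
          rw [norm_sub_rev]
          exact norm_sub_norm_le _ _
        have h6 : th0 k ≤ ‖rmul g hu X + tv g‖ := by
          have := th0_le (k := k)
          linarith
        have h7 : th0 k ≤ ‖X‖ := by
          have := th0_le (k := k)
          linarith
        rw [hs _ h6, hs _ h7, sub_zero, abs_zero]
    have hlb : l ≤ KL * (2 * (k + 1) * τ) * V := by
      have hfin : volume (Metric.closedBall (0 : Fin (k + 1) → Fin (k + 1) → ℂ) 1) ≠ ⊤ :=
        measure_closedBall_lt_top.ne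
      have hind : Integrable ((Metric.closedBall (0 : Fin (k + 1) → Fin (k + 1) → ℂ)
          1).indicator (fun _ => KL * (2 * (k + 1) * τ))) :=
        (integrable_indicator_iff measurableSet_closedBall).2 (integrableOn_const hfin)
      have h13 := integral_mono id'.abs hind hpt
      rw [integral_indicator measurableSet_closedBall, setIntegral_const, smul_eq_mul,
        mul_comm] at h13
      exact h13
    have h8 : |I1 - I3| ≤ 2 * (β * l) := by
      have h9 : I1 - I3 = -((c - 1) * I1) + (c * I1 - I3) := by ring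
      rw [h9]
      refine (abs_add_le _ _).trans ?_
      rw [abs_neg, abs_mul]
      have h10 : |c - 1| * |I1| ≤ l * β := mul_le_mul e5 b1 (abs_nonneg _) hl0
      linarith
    refine h8.trans ?_
    have h11 : β * l ≤ β * (KL * (2 * (k + 1) * τ) * V) := mul_le_mul_of_nonneg_left hlb hβ
    have h12 : 0 ≤ 8 * (k + 1) * τ * β := by positivity
    nlinarith
  · rw [not_le] at hcase
    have h8 : |I1 - I3| ≤ 2 * β := by
      refine (abs_sub _ _).trans ?_
      linarith
    refine h8.trans ?_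
    have h9 : 1 ≤ 4 * (k + 1) * τ := by
      rw [div_lt_iff₀ (by positivity)] at hcase
      linarith
    have h10 : 0 ≤ 4 * KL * (k + 1) * V * τ * β := by positivity
    nlinarith

end key

section facts

theorem gauss_int : Integrable (fun z : ℂ => Real.exp (-‖z‖ ^ 2 / 2)) := by
  have h := (integrable_fun_norm_addHaar (E := ℂ) (volume : Measure ℂ)
    (f := fun r : ℝ => Real.exp (-r ^ 2 / 2))).2 ?_
  · exact h
  · rw [Complex.finrank_real_complex]
    have h2 := (integrable_mul_exp_neg_mul_sq (b := 1 / 2) (by norm_num)).integrableOn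
      (s := Set.Ioi (0 : ℝ))
    refine h2.congr_fun ?_ measurableSet_Ioi
    intro x _
    simp only [smul_eq_mul]
    norm_num
    left
    ring

theorem gss_cont {N : ℕ} : Continuous (gss : (Fin N → Fin N → ℂ) → ℝ) := by
  unfold gss
  fun_prop

theorem gss_nonneg {N : ℕ} (X : Fin N → Fin N → ℂ) : 0 ≤ gss X :=
  Finset.prod_nonneg fun _ _ => Finset.prod_nonneg fun _ _ =>
    mul_nonneg (inv_nonneg.2 Real.pi_pos.le) (Real.exp_pos _).le

/-- the first moment -/
theorem gss_mom (N : ℕ) : Integrable (fun X : Fin N → Fin N → ℂ => gss X * ‖X‖) := by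
  have h2 : Integrable (fun X : Fin N → Fin N → ℂ =>
      ∏ i, ∏ j, Real.pi⁻¹ * Real.exp (-‖X i j‖ ^ 2 / 2)) :=
    Integrable.fintype_prod (f := fun _ : Fin N => fun x : Fin N → ℂ =>
      ∏ j, Real.pi⁻¹ * Real.exp (-‖x j‖ ^ 2 / 2)) fun _ =>
      Integrable.fintype_prod (f := fun _ : Fin N => fun t : ℂ =>
        Real.pi⁻¹ * Real.exp (-‖t‖ ^ 2 / 2)) fun _ => gauss_int.const_mul _
  refine h2.mono' (gss_cont.mul continuous_norm).aestronglyMeasurable
    (Filter.Eventually.of_forall fun X => ?_)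
  rw [Real.norm_eq_abs, abs_of_nonneg (mul_nonneg (gss_nonneg X) (norm_nonneg X))]
  have h3 : ‖X‖ ≤ ∏ i, ∏ j, Real.exp (‖X i j‖ ^ 2 / 2) := by
    have h0 : ∏ i, ∏ j, Real.exp (‖X i j‖ ^ 2 / 2) =
        Real.exp (∑ i, ∑ j, ‖X i j‖ ^ 2 / 2) := by
      rw [Real.exp_sum]
      exact Finset.prod_congr rfl fun i _ => (Real.exp_sum _ _).symm
    rw [h0]
    refine (pi_norm_le_iff_of_nonneg (Real.exp_pos _).le).2 fun i =>
      (pi_norm_le_iff_of_nonneg (Real.exp_pos _).le).2 fun j => ?_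
    have h4 : ‖X i j‖ ≤ ‖X i j‖ ^ 2 / 2 + 1 := by nlinarith [sq_nonneg (‖X i j‖ - 1)]
    refine h4.trans ((Real.add_one_le_exp _).trans (Real.exp_le_exp.2 ?_))
    refine (Finset.single_le_sum (f := fun j => ‖X i j‖ ^ 2 / 2)
      (fun j _ => by positivity) (Finset.mem_univ j)).trans ?_
    exact Finset.single_le_sum (f := fun i => ∑ j, ‖X i j‖ ^ 2 / 2)
      (fun i _ => Finset.sum_nonneg fun j _ => by positivity) (Finset.mem_univ i)
  refine (mul_le_mul_of_nonneg_left h3 (gss_nonneg X)).trans (le_of_eq ?_)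
  unfold gss
  rw [← Finset.prod_mul_distrib]
  refine Finset.prod_congr rfl fun i _ => ?_
  rw [← Finset.prod_mul_distrib]
  refine Finset.prod_congr rfl fun j _ => ?_
  rw [mul_assoc, ← Real.exp_add]
  congr 2
  ring

theorem bth_facts (hMBU : T_MBU) (k : ℕ) : ∃ KL : ℝ, 0 ≤ KL ∧
    (∀ X Y : Fin (k + 1) → Fin (k + 1) → ℂ,
      |bth (th0 k) X - bth (th0 k) Y| ≤ KL * ‖X - Y‖) ∧
    (∀ X : Fin (k + 1) → Fin (k + 1) → ℂ, th0 k ≤ ‖X‖ → bth (th0 k) X = 0) ∧
    Integrable (fun X : Fin (k + 1) → Fin (k + 1) → ℂ => bth (th0 k) X) ∧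
    ∫ X : Fin (k + 1) → Fin (k + 1) → ℂ, bth (th0 k) X = 1 ∧
    ∀ X : Fin (k + 1) → Fin (k + 1) → ℂ, 0 ≤ bth (th0 k) X := by
  obtain ⟨C, hC, h1, -⟩ := hMBU
  obtain ⟨hs, hn, -, hz, hi, h1⟩ := h1 (th0 k) th0_pos
  have hcd : ContDiff ℝ ∞ (fun X : Fin (k + 1) → Fin (k + 1) → ℂ => bth (th0 k) X) := by
    unfold bth
    refine contDiff_prod fun i _ => contDiff_prod fun j _ => ?_
    exact hs.comp (contDiff_apply_apply ℝ ℂ i j)
  have hz' : ∀ X : Fin (k + 1) → Fin (k + 1) → ℂ, th0 k ≤ ‖X‖ → bth (th0 k) X = 0 := by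
    intro X hX
    by_contra hne
    have h2 : ∀ i j, ‖X i j‖ < th0 k := by
      intro i j
      by_contra h3
      apply hne
      unfold bth
      exact Finset.prod_eq_zero (Finset.mem_univ i)
        (Finset.prod_eq_zero (Finset.mem_univ j) (hz _ (not_lt.1 h3)))
    have h4 : ‖X‖ < th0 k := (pi_norm_lt_iff th0_pos).2 fun i =>
      (pi_norm_lt_iff th0_pos).2 fun j => h2 i j
    linarith
  have hcs : HasCompactSupport
      (fun X : Fin (k + 1) → Fin (k + 1) → ℂ => bth (th0 k) X) := by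
    refine HasCompactSupport.of_support_subset_isCompact
      (isCompact_closedBall (0 : Fin (k + 1) → Fin (k + 1) → ℂ) (th0 k)) ?_
    intro X hX
    rw [mem_closedBall_zero_iff]
    by_contra h
    exact hX (hz' X (not_le.1 h).le)
  obtain ⟨K, hK⟩ := hcd.lipschitzWith_of_hasCompactSupport hcs (by simp)
  have h2 : ∫ x : Fin (k + 1) → ℂ, ∏ j, bs (th0 k) (x j) = 1 := by
    rw [integral_fintype_prod_volume_eq_prod (fun _ : Fin (k + 1) => bs (th0 k)), h1,
      Finset.prod_const_one]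
  refine ⟨K, K.2, fun X Y => ?_, hz', hcd.continuous.integrable_of_hasCompactSupport hcs, ?_,
    fun X => Finset.prod_nonneg fun i _ => Finset.prod_nonneg fun j _ => hn _⟩
  · have := hK.dist_le_mul X Y
    rwa [Real.dist_eq, dist_eq_norm] at this
  · unfold bth
    rw [integral_fintype_prod_volume_eq_prod (fun _ : Fin (k + 1) => fun x : Fin (k + 1) → ℂ =>
      ∏ j, bs (th0 k) (x j)), h2, Finset.prod_const_one]

/-- almost every affine image of a Gaussian matrix is invertible -/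
theorem ae_det (hTH : T_TH) (k : ℕ) {θ : ℝ} (hθ : 0 < θ) :
    ∀ᵐ Y : Fin (k + 1) → Fin (k + 1) → ℂ, (1 + (θ : ℂ) • Matrix.of Y).det ≠ 0 := by
  have _ := haar2 k
  have h1 := (hTH (k + 1) 0 0).1
  set dl : Fin (k + 1) → Fin (k + 1) → ℂ :=
    fun i j => (1 : Matrix (Fin (k + 1)) (Fin (k + 1)) ℂ) i j with hdl
  rw [ae_iff] at h1 ⊢
  have h2 : {Y : Fin (k + 1) → Fin (k + 1) → ℂ | ¬ (1 + (θ : ℂ) • Matrix.of Y).det ≠ 0} =
      (fun X => θ • X) ⁻¹' ((fun Y => dl + Y) ⁻¹'
        {Y : Fin (k + 1) → Fin (k + 1) → ℂ | ¬ (Matrix.of Y).det ≠ 0}) := by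
    ext Y
    have h3 : (1 + (θ : ℂ) • Matrix.of Y : Matrix (Fin (k + 1)) (Fin (k + 1)) ℂ) =
        Matrix.of (dl + θ • Y) := by
      ext i j
      rfl
    simp only [Set.mem_ofPred_eq, Set.mem_preimage, h3]
  rw [h2, Measure.addHaar_preimage_smul _ hθ.ne', measure_preimage_add, h1, mul_zero]

end facts

theorem pf_MRS (hMBU : T_MBU) (hTN : T_TN) (hIA : T_IA) (hTH : T_TH) : T_MRS := by
  intro k p q hpq
  obtain ⟨KL, hKL, hL, hz, hi, h1, hn⟩ := bth_facts hMBU k
  set M1 := ∫ Y : Fin (k + 1) → Fin (k + 1) → ℂ, gss Y * ‖Y‖ with hM1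
  have hM10 : 0 ≤ M1 := integral_nonneg fun Y => mul_nonneg (gss_nonneg Y) (norm_nonneg Y)
  set K := 4 * KL * (k + 1) * (volume (Metric.closedBall
    (0 : Fin (k + 1) → Fin (k + 1) → ℂ) 1)).toReal + 8 * (k + 1) with hK
  have hK0 : 0 ≤ K := by positivity
  refine ⟨K * M1 + 1, by positivity, ?_⟩
  intro D Φ hD hΦ f u B θ hf hB hfB hu hθ hθ1 S hS
  obtain ⟨hc, hb, -⟩ := hTN (k + 1) p q D Φ S f u B (by omega) hD hΦ hS hf hu hfB
  set b : Matrix (Fin (k + 1)) (Fin (k + 1)) ℂ → ℝ := am f Φ S u with hbdef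
  set β := B * ((D : ℝ) ^ p * mass q S) with hβdef
  have hβ : 0 ≤ β := (abs_nonneg _).trans (hb 1 (by rw [Matrix.det_one]; exact one_ne_zero))
  have hg1 : ∫ Y : Fin (k + 1) → Fin (k + 1) → ℂ, gss Y = 1 :=
    (hIA (k + 1) p S (by omega) hS).1
  have hgi : Integrable (fun Y : Fin (k + 1) → Fin (k + 1) → ℂ => gss Y) :=
    Integrable.of_integral_ne_zero (by rw [hg1]; exact one_ne_zero)
  have hae := ae_det hTH k hθ
  have hcont1 : Continuous fun X : Fin (k + 1) → Fin (k + 1) → ℂ =>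
      (1 + Matrix.of X : Matrix (Fin (k + 1)) (Fin (k + 1)) ℂ) := by
    refine continuous_const.add ?_
    exact continuous_id
  have hcont2 : Continuous fun X : Fin (k + 1) → Fin (k + 1) → ℂ =>
      (1 + (θ : ℂ) • Matrix.of X : Matrix (Fin (k + 1)) (Fin (k + 1)) ℂ) := by
    have h5 : Continuous fun X : Fin (k + 1) → Fin (k + 1) → ℂ =>
        ((θ : ℂ) • Matrix.of X : Matrix (Fin (k + 1)) (Fin (k + 1)) ℂ) := by
      refine Continuous.fun_const_smul ?_ (θ : ℂ)
      exact continuous_id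
    exact continuous_const.add h5
  have hd1 : ∀ X, bth (th0 k) X ≠ 0 → (1 + Matrix.of X).det ≠ 0 := fun X hX =>
    det_one_add (lt_of_not_ge fun h => hX (hz X h))
  have i1 := (intb (μ := volume) hc hb (fun X => bth (th0 k) X) hi _ hcont1
    (Filter.Eventually.of_forall hd1)).1
  have hprod : Integrable (fun Z : (Fin (k + 1) → Fin (k + 1) → ℂ) ×
      (Fin (k + 1) → Fin (k + 1) → ℂ) => bth (th0 k) Z.1 * gss Z.2)
      (volume.prod volume) := hi.mul_prod hgi
  have hae2 : ∀ᵐ Z : (Fin (k + 1) → Fin (k + 1) → ℂ) × (Fin (k + 1) → Fin (k + 1) → ℂ)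
      ∂(volume.prod volume), bth (th0 k) Z.1 * gss Z.2 ≠ 0 →
        ((1 + Matrix.of Z.1) * (1 + (θ : ℂ) • Matrix.of Z.2)).det ≠ 0 := by
    filter_upwards [Measure.quasiMeasurePreserving_snd.ae hae] with Z hZ hne
    rw [Matrix.det_mul]
    exact mul_ne_zero (hd1 _ (left_ne_zero_of_mul hne)) hZ
  have hcont3 : Continuous fun Z : (Fin (k + 1) → Fin (k + 1) → ℂ) ×
      (Fin (k + 1) → Fin (k + 1) → ℂ) =>
      ((1 + Matrix.of Z.1) * (1 + (θ : ℂ) • Matrix.of Z.2) :
        Matrix (Fin (k + 1)) (Fin (k + 1)) ℂ) :=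
    (hcont1.comp continuous_fst).matrix_mul (hcont2.comp continuous_snd)
  have i2 : Integrable (fun Z : (Fin (k + 1) → Fin (k + 1) → ℂ) ×
      (Fin (k + 1) → Fin (k + 1) → ℂ) => bth (th0 k) Z.1 * (gss Z.2 *
        b ((1 + Matrix.of Z.1) * (1 + (θ : ℂ) • Matrix.of Z.2)))) (volume.prod volume) := by
    have h2 := (intb (μ := volume.prod volume) hc hb _ hprod _ hcont3 hae2).1
    refine h2.congr (Filter.Eventually.of_forall fun Z => ?_)
    exact mul_assoc _ _ _
  refine ⟨i1, i2, ?_⟩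
  have hswap := integral_integral_swap (μ := (volume : Measure (Fin (k + 1) → Fin (k + 1) → ℂ)))
    (ν := (volume : Measure (Fin (k + 1) → Fin (k + 1) → ℂ)))
    (f := fun X Y => bth (th0 k) X * (gss Y *
        b ((1 + Matrix.of X) * (1 + (θ : ℂ) • Matrix.of Y)))) i2
  rw [hswap]
  have i3 := Integrable.integral_prod_right i2
  simp only at i3
  set I3 : (Fin (k + 1) → Fin (k + 1) → ℂ) → ℝ := fun Y =>
    ∫ X : Fin (k + 1) → Fin (k + 1) → ℂ,
      bth (th0 k) X * b ((1 + Matrix.of X) * (1 + (θ : ℂ) • Matrix.of Y)) with hI3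
  have e3 : ∀ Y : Fin (k + 1) → Fin (k + 1) → ℂ,
      ∫ X : Fin (k + 1) → Fin (k + 1) → ℂ, bth (th0 k) X * (gss Y *
        b ((1 + Matrix.of X) * (1 + (θ : ℂ) • Matrix.of Y))) = gss Y * I3 Y := by
    intro Y
    rw [hI3, ← integral_const_mul]
    refine integral_congr_ae (Filter.Eventually.of_forall fun X => ?_)
    show _ = _ * (_ * _)
    ring
  simp only [e3] at i3 ⊢
  set I1 := ∫ X : Fin (k + 1) → Fin (k + 1) → ℂ, bth (th0 k) X * b (1 + Matrix.of X) with hI1
  have e1 : I1 = ∫ Y : Fin (k + 1) → Fin (k + 1) → ℂ, gss Y * I1 := by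
    rw [integral_mul_const, hg1, one_mul]
  rw [e1, ← integral_sub (hgi.mul_const _) i3]
  have hbound : ∀ᵐ Y : Fin (k + 1) → Fin (k + 1) → ℂ,
      ‖gss Y * I1 - gss Y * I3 Y‖ ≤ K * θ * β * (gss Y * ‖Y‖) := by
    filter_upwards [hae] with Y hY
    have h2 := key_bd hc hb (fun X => bth (th0 k) X) KL hKL hL hz hi h1 hn
      (1 + (θ : ℂ) • Matrix.of Y) hY (θ * ‖Y‖) (by positivity) (by
        intro i j
        rw [add_sub_cancel_left, Matrix.smul_apply, norm_smul]
        have h3 : ‖(θ : ℂ)‖ = θ := by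
          rw [Complex.norm_real, Real.norm_eq_abs, abs_of_pos hθ]
        rw [h3]
        exact mul_le_mul_of_nonneg_left
          ((norm_le_pi_norm (Y i) j).trans (norm_le_pi_norm Y i)) hθ.le)
    rw [← mul_sub, norm_mul, Real.norm_eq_abs, Real.norm_eq_abs, abs_of_nonneg (gss_nonneg Y)]
    refine (mul_le_mul_of_nonneg_left h2 (gss_nonneg Y)).trans (le_of_eq ?_)
    ring
  have h2 := norm_integral_le_of_norm_le ((gss_mom (k + 1)).const_mul (K * θ * β)) hbound
  rw [integral_const_mul, Real.norm_eq_abs] at h2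
  refine h2.trans ?_
  have h3 : (K * M1 + 1) * θ * B * ((D : ℝ) ^ p * mass q S) = K * θ * β * M1 + θ * β := by
    rw [hβdef]
    ring
  rw [h3]
  have h4 : 0 ≤ θ * β := by positivity
  linarith

end Pool.Agent.H13.EMD
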